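import Pool.Agent.N848.OL.Stm

/-! # Project OL (helper848), part NMK: fields of small degree (helper327) -/

set_option autoImplicit false

namespace Pool.Agent.N327.OL

open NumberField IsDedekindDomain Module Pool.Agent.N848.OL

theorem t_NMK : S_NMK := by
  intro p hp k _ _ hd v hv x hx
  have hpp : p.Prime := hp.out
  have hp0 : (p : 𝓞 k) ≠ 0 := by exact_mod_cast hpp.ne_zero
  have hp1 : p - 1 ≠ 0 := by omega
  have hvp : v.valuation k (p : k) = v.intValuation (p : 𝓞 k) := by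
    have h := v.valuation_of_algebraMap (K := k) (p : 𝓞 k)
    have e : algebraMap (𝓞 k) k (p : 𝓞 k) = (p : k) := map_natCast (algebraMap (𝓞 k) k) p
    rw [← e]
    exact h
  have hlt : v.intValuation (p : 𝓞 k) < 1 := (v.intValuation_lt_one_iff_mem _).2 hv
  have hne : v.intValuation (p : 𝓞 k) ≠ 0 := v.intValuation_ne_zero _ hp0
  rw [hvp] at hx
  have hx0 : v.valuation k x ≠ 0 := by
    intro h0
    rw [h0, zero_pow hp1] at hx
    exact hne hx.symm
  obtain ⟨n, hn⟩ : ∃ n : ℤ, v.valuation k x = WithZero.exp n :=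
    ⟨WithZero.log (v.valuation k x), (WithZero.exp_log hx0).symm⟩
  rw [hn, ← WithZero.exp_nsmul] at hx
  have hneg : (p - 1) • n < 0 := by
    rw [← hx, ← WithZero.exp_zero, WithZero.exp_lt_exp] at hlt
    exact hlt
  have hn0 : n < 0 := by
    by_contra h
    have h1 : 0 ≤ (p - 1) • n := nsmul_nonneg (not_lt.1 h) _
    exact absurd hneg (not_lt.2 h1)
  have hle : v.intValuation (p : 𝓞 k) ≤ WithZero.exp (-((p - 1 : ℕ) : ℤ)) := by
    rw [← hx, WithZero.exp_le_exp, nsmul_eq_mul]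
    have h2 : (0 : ℤ) ≤ ((p - 1 : ℕ) : ℤ) := Int.natCast_nonneg _
    nlinarith
  have hdv := (v.intValuation_le_pow_iff_dvd _ _).1 hle
  have hN : Ideal.absNorm (v.asIdeal ^ (p - 1)) ∣ Ideal.absNorm (Ideal.span {(p : 𝓞 k)}) :=
    map_dvd Ideal.absNorm hdv
  have hpN : Ideal.absNorm (Ideal.span {(p : 𝓞 k)}) = p ^ finrank ℚ k := by
    rw [Ideal.absNorm_span_natCast, RingOfIntegers.rank]
  rw [hpN, map_pow] at hN
  have hv1 : Ideal.absNorm v.asIdeal ≠ 1 :=
    Ideal.absNorm_eq_one_iff.not.mpr v.isPrime.ne_top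
  have hv2 : Ideal.absNorm v.asIdeal ∣ p ^ finrank ℚ k := (dvd_pow_self _ hp1).trans hN
  obtain ⟨j, -, hj⟩ := (Nat.dvd_prime_pow hpp).1 hv2
  have hj0 : j ≠ 0 := by
    intro h
    rw [h, pow_zero] at hj
    exact hv1 hj
  have hpd : p ∣ Ideal.absNorm v.asIdeal := by
    rw [hj]
    exact dvd_pow_self p hj0
  have h3 : p ^ (p - 1) ∣ p ^ finrank ℚ k := (pow_dvd_pow_of_dvd hpd _).trans hN
  have h4 := (Nat.pow_dvd_pow_iff_le_right hpp.one_lt).1 h3
  omega

end Pool.Agent.N327.OL
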